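import Pool.Agent.H24.Lib.R_seed8.H112R2.Near
set_option autoImplicit false

/-! Near-invariance, recording the mass of the good set. -/

namespace Pool.Agent.Y354.PB

open Finset H112

variable {G : Type*} [AddCommGroup G]

/-- near invariance, recording the mass of the good set -/
theorem near_invariance_mass {p₁ p₂ : AddMonoidAlgebra ℝ G} (hp₁ : Law p₁)
    (hp₂ : Law p₂) {n : ℕ} (hn : 1 ≤ n) {ε : ℝ}
    (hε : H ((p₁ * p₂) ^ (n + 1)) - H (p₁ * p₂) ≤ n * ε) :
    ∃ E ⊆ p₁.coeff.support, 3 / 4 ≤ ∑ x ∈ E, p₁.coeff x ∧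
      ∀ x ∈ E, ∀ y ∈ E, ∀ γ : G →+ UnitAddCircle, 1 / 2 ≤ ‖ft ((p₁ * p₂) ^ n) γ‖ →
        ‖γ (x - y)‖ ≤ 4 * Real.sqrt ε := by
  classical
  set W : AddMonoidAlgebra ℝ G := (p₁ * p₂) ^ n with hW
  have hWl : Law W := (hp₁.mul hp₂).pow n
  obtain ⟨D', hD0, hDs, hDb⟩ := kl_decomp hp₁ hWl
  have hinc : H (p₁ * W) - H W ≤ ε := by
    have h1 := (increment_le hp₁ hp₂ n).trans hε
    have h2 : (0 : ℝ) < n := by exact_mod_cast hn
    exact le_of_mul_le_mul_left h1 h2
  simp only [Finsupp.sum] at hDs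
  have hε0 : 0 ≤ ε := by
    refine le_trans ?_ hinc
    rw [← hDs]
    exact Finset.sum_nonneg fun x _ => mul_nonneg (hp₁.1 x) (hD0 x)
  set E : Finset G := p₁.coeff.support.filter (fun x => D' x ≤ 4 * ε) with hE
  have hEA : E ⊆ p₁.coeff.support := Finset.filter_subset _ _
  have hPE : 3 / 4 ≤ ∑ x ∈ E, p₁.coeff x := by
    have htot : ∑ x ∈ p₁.coeff.support, p₁.coeff x = 1 := hp₁.2
    have hsplit := Finset.sum_filter_add_sum_filter_not p₁.coeff.support
      (fun x => D' x ≤ 4 * ε) (fun x => p₁.coeff x)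
    have hcompl : ∑ x ∈ p₁.coeff.support.filter (fun x => ¬ D' x ≤ 4 * ε), p₁.coeff x ≤ 1 / 4 := by
      rcases hε0.eq_or_lt with h0 | hpos
      · -- ε = 0
        have hz : ∀ x ∈ p₁.coeff.support, p₁.coeff x * D' x = 0 := by
          have hsum0 : ∑ x ∈ p₁.coeff.support, p₁.coeff x * D' x = 0 := by
            apply le_antisymm
            · rw [hDs]; rw [h0]; exact hinc
            · exact Finset.sum_nonneg fun x _ => mul_nonneg (hp₁.1 x) (hD0 x)
          exact (Finset.sum_eq_zero_iff_of_nonneg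
            (fun x _ => mul_nonneg (hp₁.1 x) (hD0 x))).mp hsum0
        have hempty : p₁.coeff.support.filter (fun x => ¬ D' x ≤ 4 * ε) = ∅ := by
          rw [Finset.filter_eq_empty_iff]
          intro x hx
          rw [not_not]
          have h1 := hz x hx
          rw [Finsupp.mem_support_iff] at hx
          rcases mul_eq_zero.mp h1 with h2 | h2
          · exact absurd h2 hx
          · rw [h2]; linarith
        rw [hempty]; simp
      · have h1 : ∑ x ∈ p₁.coeff.support.filter (fun x => ¬ D' x ≤ 4 * ε), p₁.coeff x * (4 * ε) ≤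
            ∑ x ∈ p₁.coeff.support, p₁.coeff x * D' x := by
          refine le_trans (Finset.sum_le_sum (g := fun x => p₁.coeff x * D' x) ?_) ?_
          · intro x hx
            rw [Finset.mem_filter, not_le] at hx
            exact mul_le_mul_of_nonneg_left hx.2.le (hp₁.1 x)
          · exact Finset.sum_le_sum_of_subset_of_nonneg (Finset.filter_subset _ _)
              fun x _ _ => mul_nonneg (hp₁.1 x) (hD0 x)
        rw [← Finset.sum_mul, hDs] at h1
        have h2 : (∑ x ∈ p₁.coeff.support.filter (fun x => ¬ D' x ≤ 4 * ε), p₁.coeff x) * (4 * ε)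
            ≤ (1 / 4) * (4 * ε) := by
          linarith
        exact le_of_mul_le_mul_right h2 (by linarith)
    rw [htot] at hsplit
    linarith
  refine ⟨E, hEA, hPE, ?_⟩
  intro x hx y hy γ hγ
  have hsq : ∀ z ∈ E, 2 * Real.sqrt (D' z) ≤ 4 * Real.sqrt ε := by
    intro z hz
    rw [hE, Finset.mem_filter] at hz
    have h1 : Real.sqrt (D' z) ≤ Real.sqrt (4 * ε) := Real.sqrt_le_sqrt hz.2
    have h2 : Real.sqrt (4 * ε) = 2 * Real.sqrt ε := by
      rw [Real.sqrt_mul (by norm_num : (0:ℝ) ≤ 4)]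
      have : Real.sqrt 4 = 2 := by
        rw [show (4:ℝ) = 2 ^ 2 by norm_num]
        exact Real.sqrt_sq (by norm_num)
      rw [this]
    linarith
  have hxs : x ∈ p₁.coeff.support := (Finset.mem_filter.mp hx).1
  have hys : y ∈ p₁.coeff.support := (Finset.mem_filter.mp hy).1
  set s : Finset G := W.coeff.support.image (fun z => z + x) ∪
    W.coeff.support.image (fun z => z + y) with hs
  have hdx := (hDb x hxs s).trans (hsq x hx)
  have hdy := (hDb y hys s).trans (hsq y hy)
  have hsum : ∑ z ∈ s, |W.coeff (z - x) - W.coeff (z - y)| ≤ 8 * Real.sqrt ε := by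
    have h1 : ∀ z ∈ s, |W.coeff (z - x) - W.coeff (z - y)| ≤
        |W.coeff (z - x) - (p₁ * W).coeff z| + |W.coeff (z - y) - (p₁ * W).coeff z| := by
      intro z _
      have := abs_sub_le (W.coeff (z - x)) ((p₁ * W).coeff z) (W.coeff (z - y))
      rw [abs_sub_comm ((p₁ * W).coeff z)] at this
      exact this
    refine (Finset.sum_le_sum h1).trans ?_
    rw [Finset.sum_add_distrib]
    linarith
  have hft : (ee (γ x) - ee (γ y)) * ft W γ =
      ∑ z ∈ s, ((W.coeff (z - x) - W.coeff (z - y) : ℝ) : ℂ) * ee (γ z) := by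
    have h1 := Near_shift_sum W x (s := s) Finset.subset_union_left γ
    have h2 := Near_shift_sum W y (s := s) Finset.subset_union_right γ
    rw [sub_mul, ← h1, ← h2, ← Finset.sum_sub_distrib]
    refine Finset.sum_congr rfl fun z _ => ?_
    push_cast
    ring
  have hbound : ‖ee (γ x) - ee (γ y)‖ * ‖ft W γ‖ ≤ 8 * Real.sqrt ε := by
    rw [← norm_mul, hft]
    refine (norm_sum_le _ _).trans (le_trans (le_of_eq ?_) hsum)
    refine Finset.sum_congr rfl fun z _ => ?_
    rw [norm_mul, Near_norm_ee, mul_one, Complex.norm_real, Real.norm_eq_abs]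
  have h3 : ‖ee (γ (x - y)) - 1‖ = ‖ee (γ x) - ee (γ y)‖ := by
    have h4 : ee (γ x) - ee (γ y) = (ee (γ (x - y)) - 1) * ee (γ y) := by
      rw [sub_mul, one_mul, ← Near_ee_add, ← map_add, sub_add_cancel]
    rw [h4, norm_mul, Near_norm_ee, mul_one]
  have h5 := four_mul_norm_le (γ (x - y))
  rw [h3] at h5
  have h6 : ‖ee (γ x) - ee (γ y)‖ * (1 / 2) ≤ 8 * Real.sqrt ε :=
    le_trans (mul_le_mul_of_nonneg_left hγ (norm_nonneg _)) hbound
  linarith

end Pool.Agent.Y354.PB
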