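import Pool.Agent.H24.Lib.seeded_1acbe0a2.Y354.PB.Ent
import Pool.Agent.H24.Lib.seeded_1acbe0a2.Y354.PT.Lift
set_option autoImplicit false

/-! Lifting a random variable with small doubling from a Bohr set to `ℤ^m × H` and cutting the
dimension by the entropic weak Marton theorem. -/

namespace Pool.Agent.Y354.PB

open Finset H112
open scoped Pointwise Classical

universe v

/-- a fibre of large entropy -/
theorem exists_fibre {Ω α γ : Type*} [Fintype Ω] [Fintype γ] {w : Ω → ℝ} (hw : H137.PFR.Law w)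
    (X : Ω → α) (C : Ω → γ) :
    ∃ c : γ, H137.PFR.push w C c ≠ 0 ∧ H137.Weak.Hg w X - H137.Weak.Hg w C ≤
      H137.Weak.Hg (H137.Weak.cw w C c) (fun ω => X ω.1) := by
  have hp : H137.PFR.Law (H137.PFR.push w C) := H137.PFR.law_push hw C
  have h2 := Hg_chain1 hw X C
  have h3 : H137.Weak.Hg w X ≤ H137.Weak.Hg w (fun ω => (X ω, C ω)) :=
    H137.Weak.Hg_le_of hw fun ω ω' h => by
      simp only [Prod.mk.injEq] at h
      exact h.1
  by_contra hcon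
  push Not at hcon
  set R := H137.Weak.Hg w X - H137.Weak.Hg w C with hR
  have h7 : ∀ y, H137.PFR.push w C y *
      H137.Weak.Hg (H137.Weak.cw w C y) (fun ω => X ω.1) ≤ H137.PFR.push w C y * R := by
    intro y
    by_cases h : H137.PFR.push w C y = 0
    · rw [h, zero_mul, zero_mul]
    · exact mul_le_mul_of_nonneg_left (hcon y h).le (hp.1 y)
  obtain ⟨y₀, hy₀⟩ : ∃ y, H137.PFR.push w C y ≠ 0 := by
    by_contra h
    push Not at h
    have h8 := hp.2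
    rw [Finset.sum_eq_zero (fun y _ => h y)] at h8
    exact absurd h8 (by norm_num)
  have h8 : ∑ y, H137.PFR.push w C y *
      H137.Weak.Hg (H137.Weak.cw w C y) (fun ω => X ω.1) < ∑ y, H137.PFR.push w C y * R := by
    refine Finset.sum_lt_sum (fun y _ => h7 y) ⟨y₀, Finset.mem_univ _, ?_⟩
    exact mul_lt_mul_of_pos_left (hcon y₀ hy₀) (lt_of_le_of_ne (hp.1 y₀) (Ne.symm hy₀))
  rw [← Finset.sum_mul, hp.2, one_mul] at h8
  linarith

variable {G : Type v} [AddCommGroup G]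

theorem lift2 [DecidableEq G] (S : Set (G →+ UnitAddCircle)) (hfin : (bohr S (1 / 6)).Finite)
    {A : Finset G} (hA : A.Nonempty) {K : ℝ} (hK : ((A + A).card : ℝ) ≤ K * A.card) {V : ℝ}
    (hsize : ((bohr S (1 / 6)).ncard : ℝ) ≤ V * A.card)
    {ρ : ℝ} (hρ0 : 0 < ρ) {R : ℕ} (hR : 1 ≤ R) (hρ : R * ρ ≤ 1 / 12)
    {Ω : Type v} [Fintype Ω] {w : Ω → ℝ} {X : Ω → G} (hw : H137.PFR.Law w)
    (hXA : ∀ ω, X ω ∈ A) (hXinj : Function.Injective X)
    (hXb : ∀ ω ω', X ω - X ω' ∈ bohr S ρ) {a b : ℝ}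
    (hent : Real.log A.card - a ≤ H137.Weak.Hg w X) (hkap : H137.Weak.kap w X ≤ b)
    {m : ℕ} (N : Seminorm ℝ (Fin m → ℝ)) (ψ : (Fin m → ℤ) →+ G) (hN : ∀ x, N x = 0 → x = 0)
    (h1 : ∀ c : Fin m → ℤ, N (fun i => (c i : ℝ)) < 1 / 2 → ∀ r : ℝ, 0 ≤ r →
        (ψ c ∈ bohr S r ↔ c ∈ LL N r))
    (h2 : ∀ x ∈ bohr S ρ, ∃ c ∈ LL N ρ, x - ψ c ∈ ann S) :
    ∃ (d : ℕ) (B : Set (Fin d → ℝ)) (ψ' : (Fin d → ℤ) →+ G) (H₀ : AddSubgroup G) (T : Finset G),
      (d : ℝ) * Real.log 2 ≤ 147 / 2 * b ∧ SymmBody B ∧ Finite H₀ ∧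
      ({c : Fin d → ℤ | (fun i => (c i : ℝ) / R) ∈ B}.ncard * Nat.card H₀ : ℝ) ≤ V * A.card ∧
      T ⊆ A ∧ (T.card : ℝ) ≤ K * Real.exp (a + 92 * b) ∧
      Covers B ψ' H₀ T A ∧
      (∀ c : Fin d → ℤ, (fun i => (c i : ℝ) / R) ∈ B → ∀ h ∈ H₀, ψ' c + h ∈ bohr S (1 / 6)) ∧
      (∀ c c' : Fin d → ℤ, (fun i => (c i : ℝ) / R) ∈ B → (fun i => (c' i : ℝ) / R) ∈ B →
        ∀ h ∈ H₀, ∀ h' ∈ H₀, ψ' c + h = ψ' c' + h' → c = c' ∧ h = h') := by
  have hRpos : (0 : ℝ) < R := by exact_mod_cast hR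
  have hR1 : (1 : ℝ) ≤ R := by exact_mod_cast hR
  have hρ12 : ρ ≤ 1 / 12 := by
    have : ρ ≤ R * ρ := le_mul_of_one_le_left hρ0.le hR1
    linarith
  have hannfin : Finite (ann S) := ann_finite hfin
  have hApos : (0 : ℝ) < A.card := by exact_mod_cast hA.card_pos
  have hK1 : 1 ≤ K := by
    have h1 : (A.card : ℝ) ≤ (A + A).card := by
      exact_mod_cast Finset.card_le_card_add_right hA
    nlinarith
  obtain ⟨ω₀⟩ : Nonempty Ω := H137.TwoPow.law_nonempty hw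
  -- the lift
  have hlift : ∀ ω : Ω, ∃ z : (Fin m → ℤ) × (ann S),
      z.1 ∈ LL N ρ ∧ ψ z.1 + (z.2 : G) = X ω - X ω₀ := by
    intro ω
    obtain ⟨c, hc, hc2⟩ := h2 _ (hXb ω ω₀)
    exact ⟨(c, ⟨X ω - X ω₀ - ψ c, hc2⟩), hc, by simp⟩
  choose Z hZ1 hZ2 using hlift
  let F : (Fin m → ℤ) × (ann S) →+ G := ψ.coprod (ann S).subtype
  have hF : ∀ z : (Fin m → ℤ) × (ann S), F z = ψ z.1 + (z.2 : G) := fun z => rfl
  have hFZ : ∀ ω, F (Z ω) = X ω - X ω₀ := fun ω => hZ2 ω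
  -- injectivity of `F`
  have hFinj : ∀ z w : (Fin m → ℤ) × (ann S), z.1 - w.1 ∈ LL N (4 * ρ) → F z = F w → z = w := by
    intro z w hzw hFzw
    have hd2 : N (fun i => (((z.1 - w.1) i : ℤ) : ℝ)) < 1 / 2 := by
      have : N (fun i => (((z.1 - w.1) i : ℤ) : ℝ)) ≤ 4 * ρ := hzw
      linarith
    have hd3 : ψ (z.1 - w.1) ∈ ann S := by
      rw [map_sub]
      have : ψ z.1 - ψ w.1 = (w.2 : G) - (z.2 : G) := by
        rw [hF, hF] at hFzw
        rw [sub_eq_sub_iff_add_eq_add, hFzw, add_comm]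
      rw [this]
      exact (ann S).sub_mem w.2.2 z.2.2
    have hd4 : z.1 - w.1 ∈ LL N 0 :=
      (h1 _ hd2 0 le_rfl).1 (bohr_zero_of_ann hd3 le_rfl)
    have hd5 : z.1 = w.1 := sub_eq_zero.1 (LL_zero hN hd4)
    refine Prod.ext hd5 ?_
    rw [hF, hF, hd5] at hFzw
    exact Subtype.ext (add_left_cancel hFzw)
  have hdiff : ∀ ω ω', Z ω - Z ω' ∈ {z : (Fin m → ℤ) × (ann S) | z.1 ∈ LL N (ρ + ρ)} :=
    fun ω ω' => LL_add N (hZ1 ω) (hZ1 ω')
  have hdd : ∀ ω₁ ω₂ ω₃ ω₄, Z ω₁ - Z ω₂ = Z ω₃ - Z ω₄ ↔ X ω₁ - X ω₂ = X ω₃ - X ω₄ := by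
    intro ω₁ ω₂ ω₃ ω₄
    have e1 : ∀ ω ω', F (Z ω - Z ω') = X ω - X ω' := by
      intro ω ω'
      rw [map_sub, hFZ, hFZ]; abel
    constructor
    · intro h
      rw [← e1, ← e1, h]
    · intro h
      apply hFinj
      · have e3 := LL_add N (hdiff ω₁ ω₂) (hdiff ω₃ ω₄)
        have e4 : ρ + ρ + (ρ + ρ) = 4 * ρ := by ring
        rwa [e4] at e3
      · rw [e1, e1, h]
  have hkapZ : H137.Weak.kap w Z = H137.Weak.kap w X := by
    have e1 : H137.Weak.Hg (H137.PFR.prod w w) (fun p => Z p.1 - Z p.2) =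
        H137.Weak.Hg (H137.PFR.prod w w) (fun p => X p.1 - X p.2) :=
      H137.Weak.Hg_congr fun p q => hdd _ _ _ _
    have e2 : H137.Weak.Hg w Z = H137.Weak.Hg w X := by
      refine H137.Weak.Hg_congr fun ω ω' => ?_
      constructor
      · intro h
        have h3 := congrArg F h
        rw [hFZ, hFZ] at h3
        exact sub_left_injective h3
      · intro h
        rw [hXinj h]
    unfold H137.Weak.kap
    rw [e1, e2]
  obtain ⟨M, P, hPM, hMfg, hPfin, hPtor, hM, hPb, hNne, hNb⟩ := H137.Weak.exists_pair hw Z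
  rw [hkapZ] at hM hPb hNb
  obtain ⟨S₀, hS₀, hgen⟩ := H137.Weak.gen_final hPM hMfg hPtor hNne
  -- a good coset of `M`
  obtain ⟨C, hC⟩ := H137.Weak.exists_code hw
    (fun ω => (Z ω : ((Fin m → ℤ) × (ann S)) ⧸ M))
  obtain ⟨c₀, hc₀, hfib⟩ := exists_fibre hw X C
  have hCh : H137.Weak.Hg w C = H137.Weak.hh w Z M := (H137.Weak.Hg_congr hC).symm
  rw [hCh] at hfib
  set A' : Finset G := (Finset.univ.filter (fun ω => C ω = c₀)).image X with hA'
  have hA'A : A' ⊆ A := by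
    intro x hx
    obtain ⟨ω, _, rfl⟩ := Finset.mem_image.1 hx
    exact hXA ω
  have hcwlaw := H137.Weak.law_cw hw C hc₀
  have hA'log : H137.Weak.Hg (H137.Weak.cw w C c₀) (fun ω => X ω.1) ≤ Real.log A'.card := by
    refine H137.Weak.Hg_le_log_card hcwlaw _ A' fun ω => ?_
    exact Finset.mem_image.2 ⟨ω.1, Finset.mem_filter.2 ⟨Finset.mem_univ _, ω.2⟩, rfl⟩
  have hA'ne : A'.Nonempty := by
    obtain ⟨ω⟩ : Nonempty {ω : Ω // C ω = c₀} := H137.TwoPow.law_nonempty hcwlaw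
    exact ⟨X ω.1, Finset.mem_image.2 ⟨ω.1, Finset.mem_filter.2 ⟨Finset.mem_univ _, ω.2⟩, rfl⟩⟩
  have hA'pos : (0 : ℝ) < A'.card := by exact_mod_cast hA'ne.card_pos
  have hb92 : 92 * H137.Weak.kap w X ≤ 92 * b := by linarith
  have hcard : (A.card : ℝ) ≤ Real.exp (a + 92 * b) * A'.card := by
    have e1 : Real.log A.card ≤ Real.log (Real.exp (a + 92 * b) * A'.card) := by
      rw [Real.log_mul (Real.exp_pos _).ne' hA'pos.ne', Real.log_exp]
      linarith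
    exact (Real.log_le_log_iff hApos (by positivity)).1 e1
  have hcov : ((A + A').card : ℝ) ≤ (K * Real.exp (a + 92 * b)) * A'.card := by
    have e1 : ((A + A').card : ℝ) ≤ (A + A).card := by
      exact_mod_cast Finset.card_le_card (Finset.add_subset_add_left hA'A)
    calc ((A + A').card : ℝ) ≤ K * A.card := e1.trans hK
      _ ≤ K * (Real.exp (a + 92 * b) * A'.card) := mul_le_mul_of_nonneg_left hcard (by linarith)
      _ = _ := by ring
  obtain ⟨Y, hYA, hYcard, hY⟩ := Finset.ruzsa_covering_add hA'ne hcov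
  -- coordinates
  obtain ⟨d, ι, ιR, hdS, hιinj, hιR, hιc, hιsurj⟩ := PT.exists_coords (S₀.image Prod.fst)
  have hMcl : ∀ z ∈ M, z.1 ∈
      AddSubgroup.closure ((S₀.image Prod.fst : Finset (Fin m → ℤ)) : Set (Fin m → ℤ)) := by
    intro z hz
    obtain ⟨o, ⟨k, hk, hko⟩, hmem⟩ := hgen z hz
    obtain ⟨p, hp, s, hs, hps⟩ := AddSubgroup.mem_sup.1 hmem
    have ho1 : o.1 = 0 := by
      apply PT.fst_of_torsion (n := k) _ hko
      rintro rfl
      exact absurd hk (by decide)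
    have hp1 : p.1 = 0 := by
      obtain ⟨k, hk⟩ := hPtor p hp
      exact PT.fst_of_torsion (n := 2 ^ k) (by positivity) hk
    have hs1 : s.1 ∈ AddSubgroup.closure
        ((S₀.image Prod.fst : Finset (Fin m → ℤ)) : Set (Fin m → ℤ)) := by
      have e1 : s.1 ∈ (AddSubgroup.closure (S₀ : Set ((Fin m → ℤ) × (ann S)))).map
          (AddMonoidHom.fst (Fin m → ℤ) (ann S)) := ⟨s, hs, rfl⟩
      rw [AddMonoidHom.map_closure] at e1
      rw [Finset.coe_image]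
      exact e1
    have e2 : z.1 = s.1 := by
      have e3 := congrArg Prod.fst hps
      simp only [Prod.fst_add, Prod.fst_sub] at e3
      rw [hp1, ho1, zero_add, sub_zero] at e3
      exact e3.symm
    rw [e2]
    exact hs1
  -- the body
  have hN' : ∀ y, (N.comp ιR) y = 0 → y = 0 := by
    intro y hy
    exact hιR y (hN _ hy)
  have h2ρ : 0 < 2 * ρ := by linarith
  have hscale : ∀ c : Fin d → ℤ, (fun i => (c i : ℝ) / R) ∈ {y | (N.comp ιR) y ≤ 2 * ρ} ↔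
      ι c ∈ LL N (2 * ρ * R) := by
    intro c
    have e1 : (fun i => (c i : ℝ) / R) = (R : ℝ)⁻¹ • (fun i => (c i : ℝ)) := by
      funext i
      simp [div_eq_inv_mul]
    rw [e1]
    change N (ιR ((R : ℝ)⁻¹ • (fun i => (c i : ℝ)))) ≤ 2 * ρ ↔
      N (fun k => ((ι c k : ℤ) : ℝ)) ≤ 2 * ρ * R
    rw [map_smul, map_smul_eq_mul, hιc, Real.norm_of_nonneg (by positivity),
      inv_mul_le_iff₀ hRpos, mul_comm (R : ℝ)]
  have hrad : 2 * ρ * R ≤ 1 / 6 := by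
    have : 2 * ρ * R = 2 * (R * ρ) := by ring
    linarith
  have hrad0 : 0 ≤ 2 * ρ * R := by positivity
  obtain ⟨hLfin, hLcard⟩ := card_LL_le hfin hN h1 hrad0 hrad
  refine ⟨d, {y | (N.comp ιR) y ≤ 2 * ρ}, ψ.comp ι, ann S, Y, ?_, symmBody_ball _ hN' h2ρ,
    hannfin, ?_, hYA, hYcard, ?_, ?_, ?_⟩
  · have e0 : d ≤ S₀.card := hdS.trans Finset.card_image_le
    have e1 : (2 : ℝ) ^ S₀.card ≤ ((P ⊔ M.map (H137.Weak.dbl _)).relIndex M : ℝ) := by
      exact_mod_cast hS₀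
    have e2 := Real.log_le_log (by positivity) e1
    rw [Real.log_pow] at e2
    have hlog2 : 0 ≤ Real.log 2 := Real.log_nonneg (by norm_num)
    have e3 : (d : ℝ) * Real.log 2 ≤ (S₀.card : ℝ) * Real.log 2 :=
      mul_le_mul_of_nonneg_right (by exact_mod_cast e0) hlog2
    linarith
  · have e1 : {c : Fin d → ℤ | (fun i => (c i : ℝ) / R) ∈ {y | (N.comp ιR) y ≤ 2 * ρ}}.ncard ≤
        (LL N (2 * ρ * R)).ncard := by
      apply Set.ncard_le_ncard_of_injOn ι _ hιinj.injOn hLfin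
      intro c hc
      exact (hscale c).1 hc
    have e2 : {c : Fin d → ℤ | (fun i => (c i : ℝ) / R) ∈ {y | (N.comp ιR) y ≤ 2 * ρ}}.ncard *
        Nat.card (ann S) ≤ (bohr S (1 / 6)).ncard :=
      (Nat.mul_le_mul_right _ e1).trans hLcard
    refine le_trans ?_ hsize
    exact_mod_cast e2
  · intro a ha
    obtain ⟨y, hy, u, hu, hyu⟩ := Finset.mem_add.1 (hY ha)
    obtain ⟨v, hv, x, hx, hvx⟩ := Finset.mem_sub.1 hu
    obtain ⟨ω, hω, rfl⟩ := Finset.mem_image.1 hv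
    obtain ⟨ω', hω', rfl⟩ := Finset.mem_image.1 hx
    have hωc : C ω = c₀ := (Finset.mem_filter.1 hω).2
    have hωc' : C ω' = c₀ := (Finset.mem_filter.1 hω').2
    have hmem : Z ω - Z ω' ∈ M := by
      have e1 := (hC ω' ω).2 (by rw [hωc, hωc'])
      rw [QuotientAddGroup.eq] at e1
      have e2 : Z ω - Z ω' = -Z ω' + Z ω := by abel
      rw [e2]
      exact e1
    obtain ⟨c, hc⟩ := hιsurj _ (hMcl _ hmem)
    refine ⟨y, hy, c, ?_, (Z ω - Z ω').2, (Z ω - Z ω').2.2, ?_⟩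
    · show N (ιR (fun i => (c i : ℝ))) ≤ 2 * ρ
      rw [hιc, hc]
      have := hdiff ω ω'
      rw [← two_mul] at this
      exact this
    · have e1 : F (Z ω - Z ω') = X ω - X ω' := by
        rw [map_sub, hFZ, hFZ]; abel
      rw [hF] at e1
      rw [AddMonoidHom.comp_apply, add_assoc, hc, e1, hvx, hyu]
  · intro c hc h hh
    have e1 : ι c ∈ LL N (2 * ρ * R) := (hscale c).1 hc
    have e2 : N (fun i => ((ι c i : ℤ) : ℝ)) ≤ 2 * ρ * R := e1
    have e3 : ψ (ι c) ∈ bohr S (2 * ρ * R) := (h1 (ι c) (by linarith) _ hrad0).2 e1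
    exact bohr_add_ann (main_bohr_mono hrad e3) hh
  · intro c c' hc hc' h hh h' hh' heq
    have e1 : ι c ∈ LL N (2 * ρ * R) := (hscale c).1 hc
    have e1' : ι c' ∈ LL N (2 * ρ * R) := (hscale c').1 hc'
    have e2 := LL_add N e1 e1'
    have e3 : N (fun i => (((ι c - ι c') i : ℤ) : ℝ)) ≤ 2 * ρ * R + 2 * ρ * R := e2
    rw [AddMonoidHom.comp_apply, AddMonoidHom.comp_apply] at heq
    have e4 : ψ (ι c - ι c') ∈ ann S := by
      rw [map_sub]
      have : ψ (ι c) - ψ (ι c') = h' - h := by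
        rw [sub_eq_sub_iff_add_eq_add, heq, add_comm]
      rw [this]
      exact (ann S).sub_mem hh' hh
    have e5 : ι c - ι c' ∈ LL N 0 :=
      (h1 _ (by linarith) 0 le_rfl).1 (bohr_zero_of_ann e4 le_rfl)
    have e6 : ι c = ι c' := sub_eq_zero.1 (LL_zero hN e5)
    refine ⟨hιinj e6, ?_⟩
    rw [e6] at heq
    exact add_left_cancel heq

end Pool.Agent.Y354.PB
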