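import Pool.Agent.H24.Lib.R_seed8.H112R2.Final
import Pool.Agent.H24.Lib.seeded_1acbe0a2.Y354.PT.Growth
import Pool.Agent.H24.Lib.seeded_1acbe0a2.Y354.PB.Core2
import Pool.Agent.H24.Lib.seeded_1acbe0a2.Y354.PB.Lift2
import Pool.Agent.H24.Lib.seeded_1acbe0a2.Y354.PB.Num2
set_option autoImplicit false

/-! Freiman-Ruzsa with polynomially many translates of a coset progression of logarithmic
dimension contained in a polylogarithmic iterated difference set. -/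

namespace Pool.Agent.Y354.PB

open Finset H112
open scoped Pointwise

/-- the conclusion of the theorem -/
def Concl {G : Type*} [AddCommGroup G] (K ε : ℝ) (R : ℕ) (A : Finset G) : Prop :=
  ∃ (N d : ℕ) (B : Set (Fin d → ℝ)) (ψ : (Fin d → ℤ) →+ G) (H₀ : AddSubgroup G) (T : Finset G),
    (N : ℝ) ≤ (60000000 / ε) ^ 3 * ((R : ℝ) ^ 2 * Real.log (2 * K)) ^ (2 + ε) ∧
    (d : ℝ) ≤ 720 * Real.log (2 * K) ∧ SymmBody B ∧ Finite H₀ ∧
    (∀ c : Fin d → ℤ, (fun i => (c i : ℝ) / R) ∈ B → ∀ h ∈ H₀, DS A N (ψ c + h)) ∧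
    (∀ c c' : Fin d → ℤ, (fun i => (c i : ℝ) / R) ∈ B → (fun i => (c' i : ℝ) / R) ∈ B →
      ∀ h ∈ H₀, ∀ h' ∈ H₀, ψ c + h = ψ c' + h' → c = c' ∧ h = h') ∧
    ({c : Fin d → ℤ | (fun i => (c i : ℝ) / R) ∈ B}.ncard * Nat.card H₀ : ℝ) ≤
      Real.exp (500000 / ε * Real.log (2 * K) * ((R : ℝ) ^ 2 * Real.log (2 * K)) ^ ε) * A.card ∧
    T ⊆ A ∧ (T.card : ℝ) ≤ (2 * K) ^ (720 / ε) ∧
    Covers B ψ H₀ T A

theorem main_fg {G : Type*} [AddCommGroup G] [AddGroup.FG G] [DecidableEq G] {K ε : ℝ}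
    (hε : 0 < ε) (hε1 : ε ≤ 1) {R : ℕ} (hR : 1 ≤ R)
    {A : Finset G} (hA : A.Nonempty) (hK : ((A + A).card : ℝ) ≤ K * A.card) (hK1 : 1 ≤ K) :
    Concl K ε R A := by
  classical
  unfold Concl
  obtain ⟨κ, hκ⟩ : ∃ κ : ℝ, κ = Real.log (2 * K) := ⟨_, rfl⟩
  rw [← hκ]
  have hK0 : (0 : ℝ) < K := by linarith
  have hκlog2 : Real.log 2 ≤ κ := by
    rw [hκ]; exact Real.log_le_log (by norm_num) (by linarith)
  have hlog2 : (0.69 : ℝ) < Real.log 2 := by have := Real.log_two_gt_d9; linarith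
  have hlog2' : Real.log 2 < (0.6932 : ℝ) := by have := Real.log_two_lt_d9; linarith
  have hκ69 : (0.69 : ℝ) < κ := lt_of_lt_of_le hlog2 hκlog2
  have hκ0 : 0 < κ := by linarith
  have hlogK : Real.log K ≤ κ := by
    rw [hκ]; exact Real.log_le_log hK0 (by linarith)
  have hlogK0 : 0 ≤ Real.log K := Real.log_nonneg hK1
  have hApos : (0 : ℝ) < A.card := by exact_mod_cast hA.card_pos
  have hRr : (1 : ℝ) ≤ R := by exact_mod_cast hR
  have hR0 : (0 : ℝ) < R := by linarith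
  -- parameters
  obtain ⟨a', ha1, ha2⟩ := exists_nat_pow_near (show (1 : ℝ) ≤ 1 + κ by linarith) (one_lt_two)
  obtain ⟨a, hadef⟩ : ∃ a : ℕ, a = a' + 1 := ⟨_, rfl⟩
  have ha : κ ≤ 2 ^ a := by rw [hadef]; linarith
  have ha' : (2 : ℝ) ^ a ≤ 2 * (1 + κ) := by rw [hadef, pow_succ]; linarith
  obtain ⟨r', hr1, hr2⟩ := exists_nat_pow_near hRr (one_lt_two)
  obtain ⟨r, hrdef⟩ : ∃ r : ℕ, r = r' + 1 := ⟨_, rfl⟩
  have hr : (R : ℝ) ≤ 2 ^ r := by rw [hrdef]; exact hr2.le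
  have hr' : (2 : ℝ) ^ r ≤ 2 * R := by rw [hrdef, pow_succ]; linarith
  obtain ⟨L, hLdef⟩ : ∃ L : ℕ, L = ⌈16 / ε⌉₊ := ⟨_, rfl⟩
  have hL : 16 / ε ≤ L := by rw [hLdef]; exact Nat.le_ceil _
  have hL' : (L : ℝ) ≤ 17 / ε := by
    have h1 : (L : ℝ) ≤ 16 / ε + 1 := by
      rw [hLdef]; exact (Nat.ceil_lt_add_one (by positivity)).le
    have h4 : (1 : ℝ) ≤ 1 / ε := by rw [le_div_iff₀ hε]; linarith
    have h5 : 17 / ε = 16 / ε + 1 / ε := by ring
    linarith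
  have h16 : (16 : ℝ) ≤ 16 / ε := by
    rw [le_div_iff₀ hε]; linarith
  have hLr : (16 : ℝ) ≤ L := h16.trans hL
  have hLn : 16 ≤ L := by exact_mod_cast hLr
  have hL0 : (0 : ℝ) < L := by linarith
  obtain ⟨l', hl'1, hl'2⟩ := exists_nat_pow_near (show (1 : ℝ) ≤ L by linarith) (one_lt_two)
  obtain ⟨l, hldef⟩ : ∃ l : ℕ, l = l' + 1 := ⟨_, rfl⟩
  have hLl : (L : ℝ) ≤ 2 ^ l := by rw [hldef]; exact hl'2.le
  have hl' : (2 : ℝ) ^ l ≤ 2 * L := by rw [hldef, pow_succ]; linarith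
  obtain ⟨u, hu⟩ : ∃ u : ℕ, u = a + 2 * r + l + 15 := ⟨_, rfl⟩
  obtain ⟨q, hq⟩ : ∃ q : ℕ, q = 8 * u / L + 1 := ⟨_, rfl⟩
  obtain ⟨j, hj⟩ : ∃ j : ℕ, j = u + q := ⟨_, rfl⟩
  obtain ⟨D, hD⟩ : ∃ D : ℝ, D = 2 * L * κ := ⟨_, rfl⟩
  obtain ⟨p₁, p₂, hp₁, hp₂, hs₁, hs₂, hH₁, hH₂, hgrow⟩ :=
    PT.exists_good_pair_fixed hA hK (L := L) (J := 2 * j + 1) (by omega)
  rw [← hκ] at hH₁ hH₂ hgrow
  rw [← hD] at hH₁
  obtain ⟨Q, hQ⟩ : ∃ Q : ℝ, Q = (1 + 1 / (L : ℝ)) ^ (2 * j + 1) := ⟨_, rfl⟩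
  have hQ1 : 1 ≤ Q := by
    rw [hQ]; exact one_le_pow₀ (by have : 0 ≤ 1 / (L : ℝ) := by positivity
                                   linarith)
  obtain ⟨W, hW⟩ : ∃ W : ℝ, W = Real.exp (4 * ((u : ℝ) / L)) := ⟨_, rfl⟩
  have hcore := num_core hLn hq hj
  rw [← hQ, ← hW] at hcore
  obtain ⟨hcore1, hcore2⟩ := hcore
  have hW1 : 1 ≤ W := by
    rw [hW]; exact Real.one_le_exp (by positivity)
  have hj0 : (0 : ℝ) ≤ j := Nat.cast_nonneg j
  -- `2 ^ j`
  obtain ⟨Y, hY⟩ : ∃ Y : ℝ, Y = 2 ^ a * 2 ^ l * 2 ^ q := ⟨_, rfl⟩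
  have h2j : (2 : ℝ) ^ j = 2 ^ 15 * ((2 ^ r) ^ 2 * Y) := by
    rw [hj, hu, hY]; ring
  have h2j0 : (0 : ℝ) < 2 ^ j := by positivity
  have h1a : (1 : ℝ) ≤ 2 ^ a := one_le_pow₀ (by norm_num)
  have h1l : (1 : ℝ) ≤ 2 ^ l := one_le_pow₀ (by norm_num)
  have h1q : (1 : ℝ) ≤ 2 ^ q := one_le_pow₀ (by norm_num)
  have h1r : (1 : ℝ) ≤ (2 ^ r) ^ 2 := one_le_pow₀ (one_le_pow₀ (by norm_num))
  have hY0 : 0 < Y := by rw [hY]; positivity
  have hY1 : 1 ≤ Y := by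
    rw [hY]
    exact one_le_mul_of_one_le_of_one_le (one_le_mul_of_one_le_of_one_le h1a h1l) h1q
  have haY : (2 : ℝ) ^ a ≤ Y := by
    rw [hY, mul_assoc]
    exact le_mul_of_one_le_right (by positivity) (one_le_mul_of_one_le_of_one_le h1l h1q)
  have hκjQ : κ * (((j : ℝ) + 2) * Q) ≤ 2 * Y := by
    have h1 : ((j : ℝ) + 2) * Q ≤ 2 * 2 ^ l * 2 ^ q := by
      refine hcore1.trans ?_
      have h2 : 2 * (L : ℝ) ≤ 2 * 2 ^ l := by linarith
      exact mul_le_mul h2 hcore2 (by positivity) (by positivity)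
    calc κ * (((j : ℝ) + 2) * Q) ≤ 2 ^ a * (2 * 2 ^ l * 2 ^ q) :=
          mul_le_mul ha h1 (by positivity) (by positivity)
      _ = 2 * Y := by rw [hY]; ring
  have hκjQ' : κ * (((j : ℝ) + 2) * Q) ≤ κ * (2 * L * W) :=
    mul_le_mul_of_nonneg_left hcore1 hκ0.le
  obtain ⟨b, hb⟩ : ∃ b : ℝ, b = 4 * κ * ((j : ℝ) + 1) * Q := ⟨_, rfl⟩
  have hbb : b ≤ 4 * (κ * (((j : ℝ) + 2) * Q)) := by
    have h3 : 0 ≤ κ * Q := by positivity
    have h3' : 4 * (κ * (((j : ℝ) + 2) * Q)) = b + 4 * (κ * Q) := by rw [hb]; ring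
    rw [h3']; linarith
  have hg0 : H (p₁ * p₂) ≤ (H p₁ + H p₂) / 2 + 2 * κ := by
    have h1 := hgrow 0 (Nat.zero_le _)
    simp only [pow_zero, pow_one, Nat.cast_zero] at h1
    linarith
  have hg1 : H ((p₁ * p₂) ^ (2 ^ (2 * j + 1))) ≤ (H p₁ + H p₂) / 2 + b := by
    have h1 := hgrow (2 * j + 1) le_rfl
    rw [← hQ] at h1
    have h2 : 2 * κ * (((2 * j + 1 : ℕ) : ℝ) + 1) * Q = b := by
      rw [hb]; push_cast; ring
    rw [h2] at h1
    linarith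
  obtain ⟨e, he⟩ : ∃ e : ℝ, e = 2 * κ * ((j : ℝ) + 2) * Q / 2 ^ j := ⟨_, rfl⟩
  have he0 : 0 < e := by rw [he]; positivity
  have hg2 : H ((p₁ * p₂) ^ (2 ^ (j + 1))) ≤ (H p₁ + H p₂) / 2 + 2 ^ j * e := by
    have h1 := hgrow (j + 1) (by omega)
    have h2 : 2 ^ j * e = 2 * κ * ((j : ℝ) + 2) * Q := by
      rw [he]; field_simp
    have h3 : (1 + 1 / (L : ℝ)) ^ (j + 1) ≤ Q := by
      rw [hQ]
      apply pow_le_pow_right₀ _ (by omega)
      have : 0 ≤ 1 / (L : ℝ) := by positivity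
      linarith
    have h4 : 2 * κ * (((j + 1 : ℕ) : ℝ) + 1) * (1 + 1 / (L : ℝ)) ^ (j + 1) ≤
        2 * κ * ((j : ℝ) + 2) * Q := by
      push_cast
      have h5 : (j : ℝ) + 1 + 1 = j + 2 := by ring
      rw [h5]
      gcongr
    rw [h2]
    linarith
  have hesmall : e ≤ (1 / (48 * R)) ^ 2 := by
    have hR2 : (R : ℝ) ^ 2 ≤ (2 ^ r) ^ 2 := pow_le_pow_left₀ (by positivity) hr 2
    rw [he, div_le_iff₀ h2j0, h2j, div_pow, one_pow, div_mul_eq_mul_div, one_mul,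
      le_div_iff₀ (by positivity)]
    calc 2 * κ * ((j : ℝ) + 2) * Q * (48 * R) ^ 2
        = 2 * 2304 * (κ * (((j : ℝ) + 2) * Q)) * R ^ 2 := by ring
      _ ≤ 2 * 2304 * (2 * Y) * (2 ^ r) ^ 2 := by gcongr
      _ = 9216 * ((2 ^ r) ^ 2 * Y) := by ring
      _ ≤ 2 ^ 15 * ((2 ^ r) ^ 2 * Y) := by
          apply mul_le_mul_of_nonneg_right (by norm_num) (by positivity)
  have hρ : R * (4 * Real.sqrt e) ≤ 1 / 12 := by
    have h1 : Real.sqrt e ≤ 1 / (48 * R) := by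
      rw [Real.sqrt_le_left (by positivity)]
      exact hesmall
    calc R * (4 * Real.sqrt e) ≤ R * (4 * (1 / (48 * R))) := by gcongr
      _ = 1 / 12 := by field_simp; norm_num
  have hρ0 : 0 < 4 * Real.sqrt e := by positivity
  have hρ6 : 4 * Real.sqrt e ≤ 1 / 6 := by
    have : 4 * Real.sqrt e ≤ R * (4 * Real.sqrt e) := le_mul_of_one_le_left hρ0.le hRr
    linarith
  have hDY : D ≤ 2 * Y := by
    rw [hD]
    calc 2 * (L : ℝ) * κ ≤ 2 * 2 ^ l * 2 ^ a := by gcongr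
      _ = 2 * (2 ^ a * 2 ^ l) * 1 := by ring
      _ ≤ 2 * (2 ^ a * 2 ^ l) * 2 ^ q := by gcongr
      _ = 2 * Y := by rw [hY]; ring
  have hexpo : 2 * b + 2 * Real.log K + 2 * D + Real.log 4 ≤ 2 ^ j * Real.log 4 := by
    have hlog4 : Real.log 4 = 2 * Real.log 2 := by
      rw [show (4 : ℝ) = 2 ^ 2 by norm_num, Real.log_pow]; norm_num
    have h5 : (2 : ℝ) ^ j ≤ 2 ^ j * Real.log 4 := by
      apply le_mul_of_one_le_right h2j0.le
      rw [hlog4]; linarith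
    refine le_trans ?_ h5
    rw [h2j]
    have h6 : Y ≤ (2 ^ r) ^ 2 * Y := le_mul_of_one_le_left hY0.le h1r
    have hκY : κ ≤ Y := ha.trans haY
    rw [hlog4]
    linarith
  have h4 : (1 / 4 : ℝ) ^ (2 ^ j) ≤ Real.exp (-(2 * b + 2 * Real.log K + 2 * D)) / 4 := by
    have h1 : (1 / 4 : ℝ) ^ (2 ^ j) = Real.exp (-(2 ^ j * Real.log 4)) := by
      have h2 : (1 / 4 : ℝ) = Real.exp (-Real.log 4) := by
        rw [Real.exp_neg, Real.exp_log (by norm_num)]; norm_num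
      rw [h2, ← Real.exp_nat_mul]
      congr 1
      push_cast
      ring
    have h3 : Real.exp (-(2 * b + 2 * Real.log K + 2 * D)) / 4 =
        Real.exp (-(2 * b + 2 * Real.log K + 2 * D + Real.log 4)) := by
      rw [neg_add _ (Real.log 4), Real.exp_add, Real.exp_neg (Real.log 4),
        Real.exp_log (by norm_num), div_eq_mul_inv]
    rw [h1, h3]
    apply Real.exp_le_exp.2
    linarith
  obtain ⟨S, Ω, hΩ, w, X, hfin, hsize, hDS, hw, hXA, hXinj, hXb, hent, hkap⟩ :=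
    core2 hA hK j hp₁ hp₂ hs₁ hs₂ hH₁ hg0 hg1 hg2 h4
  obtain ⟨m, Nn, ψ, hN, h1, h2, _⟩ := lattice_repr S hfin hρ0.le hρ6
  obtain ⟨d, B, ψ', H₀, T, hd, hB, hH₀, hvol, hTA, hT, hcov, hin, hinj⟩ :=
    lift2 S hfin hA hK hsize hρ0 hR hρ hw hXA hXinj hXb hent hkap Nn ψ hN h1 h2
  refine ⟨2 * 4 ^ j + 1, d, B, ψ', H₀, T, ?_, ?_, hB, hH₀, ?_, hinj, ?_, hTA, ?_, hcov⟩
  · have := num_count hε hε1 hκ69 hL hL' hLn hR ha' hr' hl' hu hq hj
    push_cast
    exact this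
  · have h5 : (d : ℝ) * Real.log 2 ≤ 720 * κ * Real.log 2 := by
      have h6 : 720 * κ * 0.69 ≤ 720 * κ * Real.log 2 :=
        mul_le_mul_of_nonneg_left hlog2.le (by positivity)
      linarith
    exact le_of_mul_le_mul_right h5 (by linarith)
  · intro c hc h hh
    exact hDS _ (hin c hc h hh)
  · refine hvol.trans ?_
    apply mul_le_mul_of_nonneg_right _ hApos.le
    have h5 : (8 : ℝ) * Real.exp (2 * b + 2 * Real.log K + 2 * D) =
        Real.exp (3 * Real.log 2 + (2 * b + 2 * Real.log K + 2 * D)) := by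
      have h6 : (3 : ℝ) * Real.log 2 = Real.log 8 := by
        rw [show (8 : ℝ) = 2 ^ 3 by norm_num, Real.log_pow]
        norm_num
      rw [h6, Real.exp_add (Real.log 8), Real.exp_log (by norm_num)]
    rw [h5]
    apply Real.exp_le_exp.2
    have h6 := num_exp hε hκ69 hL hLn hR ha' hr' hl' hu
    rw [← hW] at h6
    have h7 := num_s (p := ε) hκ69 hε.le hR
    have h8 : (2.45 : ℝ) ^ ε ≤ 2.45 := by
      calc (2.45 : ℝ) ^ ε ≤ 2.45 ^ (1 : ℝ) :=
            Real.rpow_le_rpow_of_exponent_le (by norm_num) hε1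
        _ = 2.45 := Real.rpow_one _
    obtain ⟨Z, hZ⟩ : ∃ Z : ℝ, Z = ((R : ℝ) ^ 2 * κ) ^ ε := ⟨_, rfl⟩
    rw [← hZ] at h7
    have hZ0 : 0 < Z := by rw [hZ]; positivity
    have h9 : W ≤ 1421 * Z := by
      have h10 : (2.45 : ℝ) ^ ε * Z ≤ 2.45 * Z := mul_le_mul_of_nonneg_right h8 hZ0.le
      linarith
    have h11 : L * W ≤ 17 / ε * (1421 * Z) :=
      mul_le_mul hL' h9 (by positivity) (by positivity)
    have h12 : (L : ℝ) ≤ L * W := le_mul_of_one_le_right hL0.le hW1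
    have h13 : 16 ≤ L * W := hLr.trans h12
    have h14 : κ * (L * W) ≤ κ * (17 / ε * (1421 * Z)) := mul_le_mul_of_nonneg_left h11 hκ0.le
    have h15 : κ * (17 / ε * (1421 * Z)) = 24157 * (1 / ε * κ * Z) := by ring
    have h16' : κ * L ≤ κ * (L * W) := mul_le_mul_of_nonneg_left h12 hκ0.le
    have h17 : κ * 16 ≤ κ * (L * W) := mul_le_mul_of_nonneg_left h13 hκ0.le
    have h18 : 0 ≤ 1 / ε * κ * Z := by positivity
    have h19 : 500000 / ε * κ * Z = 500000 * (1 / ε * κ * Z) := by ring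
    rw [← hZ, h19]
    have h20 : κ * (2 * L * W) = 2 * (κ * (L * W)) := by ring
    rw [h20] at hκjQ'
    have h21 : D = 2 * (κ * L) := by rw [hD]; ring
    rw [h21]
    linarith
  · refine hT.trans ?_
    have h5 : K ≤ Real.exp κ := by
      rw [hκ, Real.exp_log (by linarith)]; linarith
    calc K * Real.exp (4 / 3 * (D + Real.log 2) + 92 * (4 / 3 * (2 * (2 * κ) + Real.log 2)))
        ≤ Real.exp κ *
          Real.exp (4 / 3 * (D + Real.log 2) + 92 * (4 / 3 * (2 * (2 * κ) + Real.log 2))) := by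
          gcongr
      _ = Real.exp (κ + (4 / 3 * (D + Real.log 2) +
            92 * (4 / 3 * (2 * (2 * κ) + Real.log 2)))) := by
          rw [← Real.exp_add]
      _ ≤ Real.exp (κ * (720 / ε)) := by
          apply Real.exp_le_exp.2
          have h6 : D ≤ 34 * (1 / ε * κ) := by
            have h7 : 34 * (1 / ε * κ) = 2 * ((17 / ε) * κ) := by ring
            have h7' := mul_le_mul_of_nonneg_right hL' hκ0.le
            rw [hD, h7]
            linarith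
          have h8 : κ ≤ 1 / ε * κ := by
            have h9 : (1 : ℝ) ≤ 1 / ε := by rw [le_div_iff₀ hε]; linarith
            exact le_mul_of_one_le_left hκ0.le h9
          have h10 : κ * (720 / ε) = 720 * (1 / ε * κ) := by ring
          rw [h10]
          linarith
      _ = (2 * K) ^ (720 / ε) := by
          rw [Real.rpow_def_of_pos (by linarith), ← hκ]

theorem DS_map {G G' : Type*} [AddCommGroup G] [AddCommGroup G'] (f : G →+ G') {A : Finset G}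
    {A' : Finset G'} (h : ∀ a ∈ A, f a ∈ A') {N : ℕ} {x : G} (hx : DS A N x) :
    DS A' N (f x) := by
  obtain ⟨s, t, h1, h2, h3, h4, rfl⟩ := hx
  refine ⟨s.map f, t.map f, by rw [Multiset.card_map, h1], by rw [Multiset.card_map, h2],
    ?_, ?_, ?_⟩
  · intro a ha
    obtain ⟨b, hb, rfl⟩ := Multiset.mem_map.1 ha
    exact h b (h3 b hb)
  · intro a ha
    obtain ⟨b, hb, rfl⟩ := Multiset.mem_map.1 ha
    exact h b (h4 b hb)
  · rw [map_sub, map_multiset_sum, map_multiset_sum]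

/-- the theorem in an arbitrary abelian group -/
theorem main_all {G : Type*} [AddCommGroup G] [DecidableEq G] {K ε : ℝ}
    (hε : 0 < ε) (hε1 : ε ≤ 1) {R : ℕ} (hR : 1 ≤ R)
    {A : Finset G} (hA : A.Nonempty) (hK : ((A + A).card : ℝ) ≤ K * A.card) :
    Concl K ε R A := by
  classical
  have hApos : (0 : ℝ) < A.card := by exact_mod_cast hA.card_pos
  have hK1 : 1 ≤ K := by
    have h1 : (A.card : ℝ) ≤ (A + A).card := by
      exact_mod_cast Finset.card_le_card_add_right hA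
    nlinarith
  obtain ⟨Γ, hΓ⟩ : ∃ Γ : AddSubgroup G, Γ = AddSubgroup.closure (A : Set G) := ⟨_, rfl⟩
  obtain ⟨A', hA'⟩ := exists_model A Γ (fun a ha => by
    rw [hΓ]; exact AddSubgroup.subset_closure ha)
  have hinjΓ : Function.Injective Γ.subtype := Γ.subtype_injective
  have : AddGroup.FG Γ := by
    rw [AddGroup.fg_iff_addSubgroup_fg]
    exact ⟨A, hΓ.symm⟩
  have hA'ne : A'.Nonempty := by
    rw [← hA'] at hA; exact Finset.image_nonempty.1 hA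
  have hcard : A'.card = A.card := by
    rw [← hA', Finset.card_image_of_injective _ hinjΓ]
  have hcard2 : (A' + A').card = (A + A).card := by
    rw [← hA', ← Finset.image_add, Finset.card_image_of_injective _ hinjΓ]
  have hK' : ((A' + A').card : ℝ) ≤ K * A'.card := by rw [hcard2, hcard]; exact hK
  obtain ⟨N, d, B, ψ, H₀, T, hN, hd, hB, hH₀, hin, hinj, hvol, hTA, hT, hcov⟩ :=
    main_fg hε hε1 hR hA'ne hK' hK1
  have hAmem : ∀ a ∈ A', Γ.subtype a ∈ A := fun a ha => by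
    rw [← hA']; exact Finset.mem_image_of_mem _ ha
  refine ⟨N, d, B, Γ.subtype.comp ψ, H₀.map Γ.subtype, T.image Γ.subtype, hN, hd, hB, ?_, ?_,
    ?_, ?_, ?_, ?_, ?_⟩
  · have : (H₀.map Γ.subtype : Set G).Finite := by
      rw [AddSubgroup.coe_map]
      exact (Set.toFinite (H₀ : Set Γ)).image _
    exact this.to_subtype
  · rintro c hc h ⟨h', hh', rfl⟩
    have h1 := DS_map Γ.subtype hAmem (hin c hc h' hh')
    rw [map_add] at h1
    exact h1
  · rintro c c' hc hc' h ⟨h₁, hh₁, rfl⟩ h' ⟨h₂, hh₂, rfl⟩ heq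
    have h3 : Γ.subtype (ψ c + h₁) = Γ.subtype (ψ c' + h₂) := by
      rw [map_add, map_add]
      exact heq
    obtain ⟨e1, e2⟩ := hinj c c' hc hc' h₁ hh₁ h₂ hh₂ (hinjΓ h3)
    exact ⟨e1, by rw [e2]⟩
  · have h1 : Nat.card (H₀.map Γ.subtype) = Nat.card H₀ :=
      Nat.card_congr (H₀.equivMapOfInjective Γ.subtype hinjΓ).toEquiv.symm
    rw [h1, ← hcard]
    exact hvol
  · intro x hx
    obtain ⟨t, ht, rfl⟩ := Finset.mem_image.1 hx
    exact hAmem t (hTA ht)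
  · refine le_trans ?_ hT
    exact_mod_cast Finset.card_image_le
  · intro a ha
    rw [← hA'] at ha
    obtain ⟨a', ha', rfl⟩ := Finset.mem_image.1 ha
    obtain ⟨t, ht, c, hc, h, hh, e⟩ := hcov a' ha'
    refine ⟨Γ.subtype t, Finset.mem_image_of_mem _ ht, c, hc, Γ.subtype h, ⟨h, hh, rfl⟩, ?_⟩
    rw [e, map_add, map_add]
    rfl

/-- the iterated difference set in terms of functions on `Fin N` -/
theorem DS_fin {G : Type*} [AddCommGroup G] {A : Finset G} {N : ℕ} {x : G} (hx : DS A N x) :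
    ∃ u v : Fin N → G, (∀ i, u i ∈ A) ∧ (∀ i, v i ∈ A) ∧ x = ∑ i, u i - ∑ i, v i := by
  have key : ∀ s : Multiset G, Multiset.card s = N → (∀ a ∈ s, a ∈ A) →
      ∃ u : Fin N → G, (∀ i, u i ∈ A) ∧ s.sum = ∑ i, u i := by
    intro s hs hA
    induction s using Quotient.inductionOn with
    | h l =>
      have hl : l.length = N := hs
      subst hl
      refine ⟨fun i => l.get i, fun i => hA _ (List.get_mem l i), ?_⟩
      change (l : Multiset G).sum = _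
      rw [Multiset.sum_coe, ← List.sum_ofFn, List.ofFn_get]
  obtain ⟨s, t, h1, h2, h3, h4, rfl⟩ := hx
  obtain ⟨u, hu, hus⟩ := key s h1 h3
  obtain ⟨v, hv, hvs⟩ := key t h2 h4
  exact ⟨u, v, hu, hv, by rw [hus, hvs]⟩

end Pool.Agent.Y354.PB
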